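import Pool.Agent.Q289.OP.Stm

/-!
# Project OP of helper289, job CNT: counting in the cells
-/

set_option autoImplicit false

namespace Q53.OP

open MeasureTheory Set Filter Topology
open Q289.OP

/-- the cube with the corner `y / M - c` -/
def QQ {ι : Type} (c : ι → ℕ) (M : ℕ) (y : ι → ℕ) : Set (ι → ℝ) :=
  Set.pi univ fun i => Ico ((y i : ℝ) / M - c i) (((y i : ℝ) + 1) / M - c i)

theorem vol_QQ {ι : Type} [Fintype ι] (c : ι → ℕ) (M : ℕ) (_hM : 0 < M) (y : ι → ℕ) :
    volume (QQ c M y) = ENNReal.ofReal ((1 / (M : ℝ)) ^ Fintype.card ι) := by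
  unfold QQ
  rw [Real.volume_pi_Ico]
  have h : ∀ i, ((y i : ℝ) + 1) / M - c i - ((y i : ℝ) / M - c i) = 1 / M := by
    intro i
    ring
  simp only [h, Finset.prod_const, Finset.card_univ]
  rw [ENNReal.ofReal_pow (by positivity)]

theorem mem_QQ {ι : Type} (c : ι → ℕ) (M : ℕ) (hM : 0 < M) (y : ι → ℕ) (u : ι → ℝ) :
    u ∈ QQ c M y ↔ ∀ i, (y i : ℝ) ≤ M * (c i + u i) ∧ M * (c i + u i) < y i + 1 := by
  unfold QQ
  rw [Set.mem_univ_pi]
  have hM0 : (0 : ℝ) < M := by exact_mod_cast hM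
  refine forall_congr' fun i => ?_
  rw [mem_Ico, sub_le_iff_le_add, lt_sub_iff_add_lt, div_le_iff₀ hM0, lt_div_iff₀ hM0]
  constructor
  · rintro ⟨h1, h2⟩
    constructor <;> linarith
  · rintro ⟨h1, h2⟩
    constructor <;> linarith

theorem cnt_le : S_CNT := by
  classical
  intro ι _ _ _ c M hM
  have hM0 : (0 : ℝ) < M := by exact_mod_cast hM
  obtain ⟨n, hn⟩ : ∃ n : ℕ, n = Fintype.card ι := ⟨_, rfl⟩
  rw [← hn]
  -- the box
  obtain ⟨Bx, hBx⟩ : ∃ Bx : Finset (ι → ℕ),
    Bx = Fintype.piFinset fun i => Finset.Ico (M * c i) (M * c i + M) := ⟨_, rfl⟩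
  have hBxm : ∀ y, y ∈ Bx ↔ ∀ i, M * c i ≤ y i ∧ y i < M * c i + M := by
    intro y
    rw [hBx, Fintype.mem_piFinset]
    simp only [Finset.mem_Ico]
  have hBxc : Bx.card = M ^ n := by
    rw [hBx, Fintype.card_piFinset]
    simp [hn]
  obtain ⟨Y, hY⟩ : ∃ Y : Finset (ι → ℕ), Y = Bx.filter fun y => Monotone y := ⟨_, rfl⟩
  have hcnt : cnt c M = Y.card := by
    unfold cnt
    rw [← Set.ncard_coe_finset]
    congr 1
    ext y
    rw [Finset.mem_coe, hY, Finset.mem_filter, hBxm]
    rfl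
  obtain ⟨a, ha⟩ : ∃ a : ℝ, a = (1 / (M : ℝ)) ^ n := ⟨_, rfl⟩
  have ha0 : 0 < a := by
    rw [ha]
    positivity
  have haM : a * (M : ℝ) ^ n = 1 := by
    rw [ha, ← mul_pow, one_div, inv_mul_cancel₀ hM0.ne', one_pow]
  have hvol : ∀ y, volume (QQ c M y) = ENNReal.ofReal a := by
    intro y
    rw [vol_QQ c M hM y, ← hn, ← ha]
  have hcov : VS c ⊆ ⋃ y ∈ Y, QQ c M y := by
    rintro u ⟨hu1, hu2⟩
    obtain ⟨y, hy⟩ : ∃ y : ι → ℕ, y = fun i => ⌊(M : ℝ) * (c i + u i)⌋₊ := ⟨_, rfl⟩
    have hnn : ∀ i, 0 ≤ (M : ℝ) * (c i + u i) := fun i =>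
      mul_nonneg hM0.le (add_nonneg (Nat.cast_nonneg _) (hu1 i).1)
    have hyY : y ∈ Y := by
      rw [hY, Finset.mem_filter, hBxm]
      refine ⟨fun i => ⟨?_, ?_⟩, ?_⟩
      · rw [hy]
        refine Nat.le_floor ?_
        push_cast
        have := mul_nonneg hM0.le (hu1 i).1
        linarith
      · rw [hy]
        refine (Nat.floor_lt (hnn i)).2 ?_
        push_cast
        have h1 := mul_lt_mul_of_pos_left (hu1 i).2 hM0
        linarith
      · intro i j hij
        rw [hy]
        exact Nat.floor_le_floor (mul_le_mul_of_nonneg_left (hu2 hij) hM0.le)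
    refine mem_iUnion₂.2 ⟨y, hyY, ?_⟩
    rw [mem_QQ c M hM]
    intro i
    rw [hy]
    exact ⟨Nat.floor_le (hnn i), Nat.lt_floor_add_one _⟩
  have hup : volume (VS c) ≤ (Y.card : ENNReal) * ENNReal.ofReal a := by
    calc volume (VS c) ≤ volume (⋃ y ∈ Y, QQ c M y) := measure_mono hcov
      _ ≤ ∑ y ∈ Y, volume (QQ c M y) := measure_biUnion_finset_le _ _
      _ = (Y.card : ENNReal) * ENNReal.ofReal a := by
        simp only [hvol, Finset.sum_const, nsmul_eq_mul]
  have htop : (Y.card : ENNReal) * ENNReal.ofReal a ≠ ⊤ :=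
    ENNReal.mul_ne_top (ENNReal.natCast_ne_top _) ENNReal.ofReal_ne_top
  have hfin : volume (VS c) ≠ ⊤ := ne_top_of_le_ne_top htop hup
  have hupr : vv c ≤ Y.card * a := by
    have h1 := ENNReal.toReal_mono htop hup
    rw [ENNReal.toReal_mul, ENNReal.toReal_natCast, ENNReal.toReal_ofReal ha0.le] at h1
    exact h1
  -- the injective points
  obtain ⟨Z, hZ⟩ : ∃ Z : Finset (ι → ℕ), Z = Y.filter fun y => Function.Injective y := ⟨_, rfl⟩
  have hsub : (⋃ y ∈ Z, QQ c M y) ⊆ VS c := by
    refine iUnion₂_subset fun y hy u hu => ?_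
    rw [mem_QQ c M hM] at hu
    rw [hZ, Finset.mem_filter, hY, Finset.mem_filter, hBxm] at hy
    obtain ⟨⟨hy1, hy2⟩, hy3⟩ := hy
    refine ⟨fun i => ?_, ?_⟩
    · have h1 : ((M * c i : ℕ) : ℝ) ≤ y i := by exact_mod_cast (hy1 i).1
      have h2 : (y i : ℝ) + 1 ≤ ((M * c i + M : ℕ) : ℝ) := by exact_mod_cast (hy1 i).2
      push_cast at h1 h2
      have h3 := hu i
      constructor
      · have h4 : 0 ≤ (M : ℝ) * u i := by linarith
        exact nonneg_of_mul_nonneg_right h4 hM0
      · have h4 : (M : ℝ) * u i < M * 1 := by linarith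
        exact lt_of_mul_lt_mul_left h4 hM0.le
    · intro i j hij
      rcases eq_or_lt_of_le hij with h | h
      · rw [h]
      · have h1 : y i < y j := lt_of_le_of_ne (hy2 hij) fun e => h.ne (hy3 e)
        have h2 : (y i : ℝ) + 1 ≤ y j := by exact_mod_cast h1
        have h3 := (hu i).2
        have h4 := (hu j).1
        have h5 : (M : ℝ) * (c i + u i) ≤ M * (c j + u j) := by linarith
        exact le_of_mul_le_mul_left h5 hM0
  have hdis : Set.PairwiseDisjoint (↑Z : Set (ι → ℕ)) (QQ c M) := by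
    intro y _ y' _ hne
    rw [Function.onFun, Set.disjoint_left]
    intro u hu hu'
    rw [mem_QQ c M hM] at hu hu'
    apply hne
    funext i
    have h1 : (y i : ℝ) < y' i + 1 := by linarith [(hu i).1, (hu' i).2]
    have h2 : (y' i : ℝ) < y i + 1 := by linarith [(hu' i).1, (hu i).2]
    have h3 : y i < y' i + 1 := by exact_mod_cast h1
    have h4 : y' i < y i + 1 := by exact_mod_cast h2
    omega
  have hlo : (Z.card : ℝ) * a ≤ vv c := by
    have h1 : (Z.card : ENNReal) * ENNReal.ofReal a ≤ volume (VS c) := by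
      calc (Z.card : ENNReal) * ENNReal.ofReal a = ∑ y ∈ Z, volume (QQ c M y) := by
            simp only [hvol, Finset.sum_const, nsmul_eq_mul]
        _ = volume (⋃ y ∈ Z, QQ c M y) :=
            (measure_biUnion_finset hdis fun y _ => MeasurableSet.univ_pi fun _ => measurableSet_Ico).symm
        _ ≤ volume (VS c) := measure_mono hsub
    have h2 := ENNReal.toReal_mono hfin h1
    rw [ENNReal.toReal_mul, ENNReal.toReal_natCast, ENNReal.toReal_ofReal ha0.le] at h2
    exact h2
  -- the other points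
  obtain ⟨A, hA⟩ : ∃ A : ι × ι → Finset (ι → ℕ),
    A = fun p => Bx.filter fun y => p.1 ≠ p.2 ∧ y p.1 = y p.2 := ⟨_, rfl⟩
  have hAc : ∀ p, (A p).card * M ≤ M ^ n := by
    rintro ⟨i, j⟩
    have h1 : (A (i, j)).card * M = (A (i, j) ×ˢ Finset.Ico (M * c i) (M * c i + M)).card := by
      rw [Finset.card_product, Nat.card_Ico]
      congr 1
      omega
    rw [h1, ← hBxc]
    refine Finset.card_le_card_of_injOn (fun x => Function.update x.1 i x.2) ?_ ?_
    · rintro ⟨y, t⟩ hx
      rw [Finset.mem_coe, Finset.mem_product, hA, Finset.mem_filter, hBxm, Finset.mem_Ico] at hx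
      rw [Finset.mem_coe, hBxm]
      intro k
      by_cases hk : k = i
      · subst hk
        simp only [Function.update_self]
        exact hx.2
      · simp only [Function.update_of_ne hk]
        exact hx.1.1 k
    · rintro ⟨y, t⟩ hx ⟨y', t'⟩ hx' h
      rw [Finset.mem_coe, Finset.mem_product, hA, Finset.mem_filter] at hx hx'
      simp only at hx hx' h
      have e1 : t = t' := by
        have := congrFun h i
        simpa only [Function.update_self] using this
      have e2 : ∀ k, k ≠ i → y k = y' k := by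
        intro k hk
        have := congrFun h k
        simpa only [Function.update_of_ne hk] using this
      have e3 : y i = y' i := by
        rw [hx.1.2.2, hx'.1.2.2]
        exact e2 j fun e => hx.1.2.1 e.symm
      refine Prod.ext ?_ e1
      funext k
      by_cases hk : k = i
      · rw [hk]
        exact e3
      · exact e2 k hk
  have hYZ : Y ⊆ Z ∪ (Finset.univ : Finset (ι × ι)).biUnion A := by
    intro y hy
    rw [Finset.mem_union]
    by_cases hinj : Function.Injective y
    · left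
      rw [hZ, Finset.mem_filter]
      exact ⟨hy, hinj⟩
    · right
      unfold Function.Injective at hinj
      push Not at hinj
      obtain ⟨i, j, h1, h2⟩ := hinj
      rw [Finset.mem_biUnion]
      refine ⟨(i, j), Finset.mem_univ _, ?_⟩
      rw [hA, Finset.mem_filter]
      rw [hY, Finset.mem_filter] at hy
      exact ⟨hy.1, h2, h1⟩
  have hcard : Y.card * M ≤ Z.card * M + n ^ 2 * M ^ n := by
    have h1 : Y.card ≤ Z.card + ∑ p : ι × ι, (A p).card :=
      (Finset.card_le_card hYZ).trans ((Finset.card_union_le _ _).trans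
        (Nat.add_le_add_left Finset.card_biUnion_le _))
    have h2 : (∑ p : ι × ι, (A p).card) * M ≤ n ^ 2 * M ^ n := by
      rw [Finset.sum_mul]
      refine (Finset.sum_le_card_nsmul _ _ _ fun p _ => hAc p).trans (le_of_eq ?_)
      rw [Finset.card_univ, Fintype.card_prod, smul_eq_mul, ← hn]
      ring
    calc Y.card * M ≤ (Z.card + ∑ p : ι × ι, (A p).card) * M := Nat.mul_le_mul_right _ h1
      _ = Z.card * M + (∑ p : ι × ι, (A p).card) * M := by ring
      _ ≤ Z.card * M + n ^ 2 * M ^ n := Nat.add_le_add_left h2 _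
  rw [hcnt]
  constructor
  · calc vv c * (M : ℝ) ^ n ≤ (Y.card * a) * (M : ℝ) ^ n := by gcongr
      _ = Y.card := by rw [mul_assoc, haM, mul_one]
  · have h1 : (Y.card : ℝ) * M ≤ Z.card * M + (n : ℝ) ^ 2 * (M : ℝ) ^ n := by exact_mod_cast hcard
    have h2 : (Z.card : ℝ) ≤ vv c * (M : ℝ) ^ n := by
      calc (Z.card : ℝ) = (Z.card * a) * (M : ℝ) ^ n := by rw [mul_assoc, haM, mul_one]
        _ ≤ vv c * (M : ℝ) ^ n := by gcongr
    have h3 : (Z.card : ℝ) * M ≤ vv c * (M : ℝ) ^ (n + 1) := by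
      rw [pow_succ, ← mul_assoc]
      exact mul_le_mul_of_nonneg_right h2 hM0.le
    linarith

end Q53.OP
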